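import Pool.Agent.V7H59.CA.Hard

/-!
# One-way and two-way linear cellular arrays: the case of time below `n ^ 2 / log n`

Some language of a two-way linear cellular array (no time bound) is not accepted by any one-way
array, and not even by any two-way array, in time `T n` with `T n * log n` small against `n ^ 2`
(for infinitely many `n`). For linear time this separates linear time from unbounded time.
-/

set_option autoImplicit false

namespace Pool.Agent.Results.MP_2eed13_lc.FastArraysH59

open Pool.Agent.V7H59.CA

/-- There is a language `L` over `{0, 1}` which is accepted by a two-way linear cellular array without
time bound, such that for every function `T` with `T n * log n` infinitely often smaller than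
`n ^ 2 / k`, for each `k`, the language `L` is not accepted by a two-way array (at its leftmost cell)
nor by a one-way array (at its rightmost cell) within `T n` steps on the inputs of length `n`. -/
theorem result : ∃ L : Set (List Bool), IsLCA L ∧ ∀ T : ℕ → ℕ,
    (∀ k n₀ : ℕ, ∃ n ≥ n₀, k * (T n * Nat.log 2 n) ≤ n ^ 2) →
      ¬ IsLCATime T L ∧ ¬ IsOLCATime T L :=
  array_hard

end Pool.Agent.Results.MP_2eed13_lc.FastArraysH59
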